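import Pool.Agent.K1H53.KZ.Asm

/-!
Directed polymers on `ℤ` with a general i.i.d. environment: the scaling relation `χ = 2 ν - 1` at
almost every drift at which the second derivative of the free energy does not vanish.

Proof idea. For almost every drift `h` the limiting free energy `p` has a second order expansion and
the drifts near `h` with tails of the same kind as at `h` have density one. Tilting by such drifts
confines the polymer to tubes of radius `n^a`, `2a - 1 > χ`, so `ν ≤ (1 + χ)/2`. Conversely, forward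
and backward free polymers with drifts `h ± t`, `t` of order `n^(a-1)`, and planarity show that
all point-to-point free energies with end point within `n^a` of `n v` concentrate at the scale
`n^(2a-1)` around `𝔼 F_n - h z`. With a block of positions at an intermediate time `s`, the tube
around the line of slope `v`, the region above it and the whole environment after time `s` all see
the free energy of length `n` up to fluctuations at time `s`; three functions of two out of
three independent groups of sites which are close to each other are close to a constant. This gives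
`χ (1 + χ) ≤ 2 χ ν`.

The walk (`pos`) is defined in `Pool/Agent/K1H53/SD/Paths.lean`, the energy and the tube in
`Pool/Agent/K1H53/SD/Defs.lean`, the free polymer measure `frProb` in
`Pool/Agent/K1H53/SF/FDefs.lean`, the free energy `frEnergy` in `Pool/Agent/K1H53/KP/Defs.lean`, and
the exponents `chi` and `nu` in `Pool/Agent/K1H53/KZ/Plan.lean`.
-/

namespace Pool.Agent.K1H53.WD.KPZRelationOne

open MeasureTheory ProbabilityTheory Filter Topology Pool.Agent.K1H53.SD Pool.Agent.K1H53.SF
  Pool.Agent.K1H53.KP Pool.Agent.K1H53.KZ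

/-- For every non-constant law of the environment with all exponential moments and every `β > 0`,
the mean free energies `𝔼 F_n(h)` of the free polymers with drift `h` satisfy
`𝔼 F_n(h) / n → p(h)` for all `h`, with `p` convex, and for Lebesgue almost every `h` there are `v`
and `q ≥ 0` (the first two derivatives of `p` at `h`) with `p(h + t) = p(h) + v t + q t² / 2 + o(t²)`
such that the fluctuation exponent `χ = chi(h)` and the wandering exponent `ν = nu(h, v)` satisfy
`1/5 ≤ χ ≤ 1/2`, `(1 - ν)/2 ≤ χ` and `2 ν - 1 ≤ χ`, and, if `q ≠ 0`, then `χ = 2 ν - 1` and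
`3/5 ≤ ν ≤ 3/4`. -/
theorem result {Ω : Type*} [MeasurableSpace Ω] (P : Measure Ω) [IsProbabilityMeasure P]
    (ω : ℕ → ℤ → Ω → ℝ)
    (hmeas : ∀ i y, Measurable (ω i y))
    (hindep : iIndepFun (fun s : ℕ × ℤ => ω s.1 s.2) P)
    (hident : ∀ i y, IdentDistrib (ω i y) (ω 1 0) P P)
    (hexp : ∀ b : ℝ, Integrable (fun x => Real.exp (b * ω 1 0 x)) P)
    (hnc : ¬ ∃ c : ℝ, ∀ᵐ x ∂P, ω 1 0 x = c) (β : ℝ) (hβ : 0 < β) :
    ∃ p : ℝ → ℝ, ConvexOn ℝ Set.univ p ∧
      (∀ h : ℝ, Tendsto (fun n : ℕ => (∫ x, frEnergy β h (fun i y => ω i y x) n ∂P) / n) atTop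
        (𝓝 (p h))) ∧
      ∀ᵐ h : ℝ, ∃ v q : ℝ, HasDerivAt p v h ∧ 0 ≤ q ∧
        (∀ ε : ℝ, 0 < ε → ∃ δ : ℝ, 0 < δ ∧ ∀ t : ℝ, |t| ≤ δ →
          |p (h + t) - (p h + v * t + q / 2 * t ^ 2)| ≤ ε * t ^ 2) ∧
        1 / 5 ≤ chi P ω β h ∧ chi P ω β h ≤ 1 / 2 ∧ (1 - nu P ω β h v) / 2 ≤ chi P ω β h ∧
        2 * nu P ω β h v - 1 ≤ chi P ω β h ∧
        (q ≠ 0 → chi P ω β h = 2 * nu P ω β h v - 1 ∧
          3 / 5 ≤ nu P ω β h v ∧ nu P ω β h v ≤ 3 / 4) := by
  have he : IsEnv P ω := ⟨hmeas, hindep, hident⟩
  obtain ⟨p, hconv, hp⟩ := exists_p1 he hexp β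
  refine ⟨p, hconv, fun h => ?_, ?_⟩
  · refine (hp h).congr (fun n => ?_)
    unfold FL
    simp_rw [frEnergy_eq]
  · filter_upwards [Pool.Agent.K1H53.KZ.final he hexp hnc hβ hconv hp] with h hh
    obtain ⟨v, q, h1, h2, h3, h4, h5, h6, h7, h8⟩ := hh
    refine ⟨v, q, h1, h2, h3, h4, h5, h6, h7, fun hq => ?_⟩
    obtain ⟨h9, h10⟩ := h8 hq
    exact ⟨h9, h10, by linarith⟩

end Pool.Agent.K1H53.WD.KPZRelationOne
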