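import Pool.Agent.K1H53.KP.Final

/-!
Directed polymers on `ℤ` with a general i.i.d. environment: one half of the scaling relation
`χ = 2 ν - 1` in almost every direction.

Proof idea: fix a block of positions at an intermediate time `s`. Planarity, shift invariance and
concavity of the mean point-to-point free energies show that the tube around the line of slope `v`,
the region above it, and the whole environment after time `s` all see the same free energy up to
the fluctuations at time `s`; three functions of two out of three independent groups of sites which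
are close to each other are close to a constant.

The walk (`pos`) is defined in `Pool/Agent/K1H53/SD/Paths.lean`, the energy and the tube in
`Pool/Agent/K1H53/SD/Defs.lean`, the free polymer measure and the wandering exponent in
`Pool/Agent/K1H53/SF/FDefs.lean`, the free energies and the fluctuation exponents in
`Pool/Agent/K1H53/KP/Defs.lean`.
-/

namespace Pool.Agent.K1H53.WD.ScalingRelation

open MeasureTheory ProbabilityTheory Filter Pool.Agent.K1H53.SD Pool.Agent.K1H53.SF
  Pool.Agent.K1H53.KP

/-- For every non-constant law of the environment with all exponential moments and every `β > 0`,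
for Lebesgue almost every `v ∈ (-1,1)`, for every drift `h` such that the wandering exponent
`ν = ν(h, v)` of the free polymer with drift `h` around the line of slope `v` is less than `1`:
the typical fluctuation exponent `χ` of the free energy of the free polymer with drift `h` and the
fluctuation exponent `χ'` of the point-to-point polymers near the direction `v` satisfy
`(1 - ν)/2 ≤ χ ≤ χ' ≤ 1/2` and `χ (1 + χ') ≤ 2 χ' ν`; in particular `χ ≤ 2 ν - 1` if `χ = χ'`. -/
theorem result {Ω : Type*} [MeasurableSpace Ω] (P : Measure Ω) [IsProbabilityMeasure P]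
    (ω : ℕ → ℤ → Ω → ℝ)
    (hmeas : ∀ i y, Measurable (ω i y))
    (hindep : iIndepFun (fun s : ℕ × ℤ => ω s.1 s.2) P)
    (hident : ∀ i y, IdentDistrib (ω i y) (ω 1 0) P P)
    (hexp : ∀ b : ℝ, Integrable (fun x => Real.exp (b * ω 1 0 x)) P)
    (hnc : ¬ ∃ c : ℝ, ∀ᵐ x ∂P, ω 1 0 x = c) (β : ℝ) (hβ : 0 < β) :
    ∀ᵐ v : ℝ, v ∈ Set.Ioo (-1 : ℝ) 1 → ∀ h : ℝ, wanderingExpF P ω β h v < 1 →
      (1 - wanderingExpF P ω β h v) / 2 ≤ chiTyp P ω β h ∧
      chiTyp P ω β h ≤ chiDir P ω β v ∧ chiDir P ω β v ≤ 1 / 2 ∧
      chiTyp P ω β h * (1 + chiDir P ω β v) ≤ 2 * chiDir P ω β v * wanderingExpF P ω β h v ∧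
      (chiTyp P ω β h = chiDir P ω β v → chiTyp P ω β h ≤ 2 * wanderingExpF P ω β h v - 1) :=
  Pool.Agent.K1H53.KP.relations ⟨hmeas, hindep, hident⟩ hexp hnc hβ

end Pool.Agent.K1H53.WD.ScalingRelation
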